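import Pool.Agent.C4U.Stmts

/-!
# C4U, row CNT: the number of good states
-/

set_option autoImplicit false

namespace Pool.Agent.C4U.H13

open Pool.Agent.C4U
open Pool.Agent.C4F (Lt cn NumF)

/-- the possible values of the first registers -/
noncomputable def val (V : Gr) : Finset ℕ :=
  insert 0 ((@Finset.filter ℕ V.J (Classical.decPred _) (Finset.range V.N)).image (fun v => v + 1))

theorem val_card (V : Gr) (h : cn V.J V.N < V.k) : (val V).card ≤ V.k := by
  classical
  have h1 : (Finset.filter V.J (Finset.range V.N)).card = cn V.J V.N := by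
    rw [cn, Nat.count_eq_card_filter_range]
  have h2 : (val V).card ≤ (Finset.filter V.J (Finset.range V.N)).card + 1 := by
    unfold val
    refine (Finset.card_insert_le _ _).trans ?_
    apply Nat.succ_le_succ
    refine Finset.card_image_le.trans (le_of_eq ?_)
    congr
  omega

theorem cnt (_hCNL : CnlStmt) (hSTL : StlStmt) (hBOX : BoxStmt) (hCN1 : Cn1Stmt) : CntStmt := by
  classical
  intro V hk l
  set M : ℕ := ((V.N + 1) * (Nat.log 2 (V.N + 1) + 1) ^ V.k) ^ V.k with hM
  have hMpos : 1 ≤ M := Nat.one_le_iff_ne_zero.2 (by rw [hM]; positivity)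
  have hkpos : 1 ≤ V.k := by omega
  have hX : V.X = Nat.sqrt (V.k ^ (4 * V.k) * M) := rfl
  constructor
  · set A : Set (ℕ → ℕ) := {c | IsSt V.dd (V.N + 1) c ∧ ln V.dd c = l ∧ V.Ok c} with hA
    set P : Set (ℕ → ℕ) := {f | (∀ e < 2 * V.k, f e ∈ val V) ∧ ∀ e, 2 * V.k ≤ e → f e = 0} with hP
    obtain ⟨hPf, hPc⟩ := hBOX (2 * V.k) (fun _ => val V) P (fun f hf => hf)
    have hPk : P.ncard ≤ V.k ^ (2 * V.k) := by
      refine hPc.trans ?_
      rw [Finset.prod_const, Finset.card_range]
      exact Nat.pow_le_pow_left (val_card V hk) _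
    have hmap : ∀ c ∈ A, pre (2 * V.k) c ∈ P := by
      intro c hc
      obtain ⟨hs, -, hok⟩ := hc
      obtain ⟨-, h1, h2, -⟩ := hSTL V.dd (V.N + 1) c (Nat.le_add_left 1 _) hs
      constructor
      · intro e he
        have h3 : pre (2 * V.k) c e = c e := if_pos he
        rw [h3]
        by_cases hl : e < ln V.dd c
        · have h4 := hok.1 e hl he
          have h5 := (h1 e hl).1
          refine Finset.mem_insert_of_mem (Finset.mem_image.2 ⟨c e - 1, ?_, by omega⟩)
          refine Finset.mem_filter.2 ⟨Finset.mem_range.2 (by omega), h4.2⟩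
        · rw [h2 e (not_lt.1 hl)]
          exact Finset.mem_insert_self _ _
      · intro e he
        exact if_neg (not_lt.2 he)
    have hfin : A.Finite := by
      have h1 : A ⊆ ⋃ κ ∈ P, {c | IsSt V.dd (V.N + 1) c ∧ ln V.dd c = l ∧ V.Ok c ∧
          pre (2 * V.k) c = κ} := by
        intro c hc
        exact Set.mem_iUnion₂.2 ⟨pre (2 * V.k) c, hmap c hc, hc.1, hc.2.1, hc.2.2, rfl⟩
      exact (hPf.biUnion (fun κ _ => (hCN1 V κ l).1)).subset h1
    have hcard : A.ncard ≤ Nat.sqrt M * V.k ^ (2 * V.k) := by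
      rw [Set.ncard_eq_toFinset_card A hfin]
      have h1 := Finset.card_le_mul_card_image (f := pre (2 * V.k)) hfin.toFinset (Nat.sqrt M) (by
        intro κ _
        rw [Nat.le_sqrt']
        refine le_trans ?_ (hCN1 V κ l).2
        apply Nat.pow_le_pow_left
        rw [Set.ncard_eq_toFinset_card _ (hCN1 V κ l).1]
        apply Finset.card_le_card
        intro c hc
        rw [Finset.mem_filter, Set.Finite.mem_toFinset] at hc
        rw [Set.Finite.mem_toFinset]
        exact ⟨hc.1.1, hc.1.2.1, hc.1.2.2, hc.2⟩)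
      refine h1.trans (Nat.mul_le_mul_left _ ?_)
      refine le_trans ?_ hPk
      rw [Set.ncard_eq_toFinset_card P hPf]
      apply Finset.card_le_card
      intro f hf
      obtain ⟨c, hc, rfl⟩ := Finset.mem_image.1 hf
      rw [Set.Finite.mem_toFinset] at hc ⊢
      exact hmap c hc
    refine hcard.trans ?_
    rw [hX, Nat.le_sqrt', mul_pow, ← pow_mul, mul_comm]
    have h2 : 2 * V.k * 2 = 4 * V.k := by ring
    rw [h2]
    exact Nat.mul_le_mul_left _ (Nat.sqrt_le' M)
  · rw [hX, Nat.le_sqrt', one_pow]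
    exact Nat.one_le_iff_ne_zero.2 (Nat.mul_ne_zero (pow_ne_zero _ (by omega)) (by omega))

end Pool.Agent.C4U.H13
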